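import Mathlib
import Pool.Agent.Helper94.Series

set_option autoImplicit false

namespace Pool.Agent.Results.MP_5f1296_al.SNStarDisproof

/-- The set of bounded right Engel elements: `a` such that for some `n`, the commutator
`[a, x, …, x]` (with `n` copies of `x`) is trivial for every `x`. -/
def BddRightEngel (G : Type) [Group G] : Set G :=
  {a | ∃ n : ℕ, ∀ x : G, (fun y : G => y⁻¹ * x⁻¹ * y * x)^[n] a = 1}

/-- `H` is subnormal in `L` of defect at most `n`: there is a chain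
`H = C 0 ⊴ C 1 ⊴ … ⊴ C n = L`. -/
def SubnormalDefectLE {G : Type} [Group G] (n : ℕ) (H L : Subgroup G) : Prop :=
  ∃ C : ℕ → Subgroup G, C 0 = H ∧ C n = L ∧
    ∀ i < n, C i ≤ C (i + 1) ∧ ∀ g ∈ C (i + 1), ∀ h ∈ C i, g * h * g⁻¹ ∈ C i

/-- The set of `a` for which there is `n ≥ 1` such that for every `x` the subgroup `⟨x⟩` is
subnormal of defect at most `n` in `⟨x⟩⟨a⟩^G`. -/
def BddRho (G : Type) [Group G] : Set G :=
  {a | ∃ n : ℕ, 1 ≤ n ∧ ∀ x : G, SubnormalDefectLE n (Subgroup.zpowers x)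
    (Subgroup.zpowers x ⊔ Subgroup.normalClosure {a})}

/-- `G` is an SN*-group: it has an ascending series, each term normal in the next, all of whose
factors are abelian. -/
def IsSNStar (G : Type) [Group G] : Prop :=
  ∃ (β : Ordinal.{0}) (S : Ordinal.{0} → Subgroup G),
    S 0 = ⊥ ∧ S β = ⊤ ∧
    (∀ α < β, S α ≤ S (Order.succ α) ∧
      (∀ a ∈ S (Order.succ α), ∀ b ∈ S α, a * b * a⁻¹ ∈ S α) ∧
      (∀ a ∈ S (Order.succ α), ∀ b ∈ S (Order.succ α), a * b * a⁻¹ * b⁻¹ ∈ S α)) ∧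
    (∀ l ≤ β, Order.IsSuccLimit l → (S l : Set G) = ⋃ (α : Ordinal.{0}) (_ : α < l), (S α : Set G))

/-- From an `ω`-sequence to an ordinal-indexed abelian series of length `ω + 1`. -/
theorem isSNStar_of_seq {G : Type} [Group G] (S : ℕ → Subgroup G) (T : Subgroup G)
    (h0 : S 0 = ⊥) (hmono : ∀ m, S m ≤ S (m + 1))
    (hnorm : ∀ m, ∀ a b : G, b ∈ S m → a * b * a⁻¹ ∈ S m)
    (hab : ∀ m, ∀ a b : G, a ∈ S (m + 1) → b ∈ S (m + 1) → a * b * a⁻¹ * b⁻¹ ∈ S m)
    (hT : ∀ y : G, y ∈ T ↔ ∃ m, y ∈ S m)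
    (hTnorm : ∀ a b : G, b ∈ T → a * b * a⁻¹ ∈ T)
    (hTab : ∀ a b : G, a * b * a⁻¹ * b⁻¹ ∈ T) : IsSNStar G := by
  classical
  obtain ⟨f, hf⟩ : ∃ f : Ordinal.{0} → ℕ, ∀ n : ℕ, f (n : Ordinal.{0}) = n :=
    ⟨fun α => Cardinal.toNat α.card, fun n => by simp⟩
  obtain ⟨S', hS'⟩ : ∃ S' : Ordinal.{0} → Subgroup G, S' = fun α =>
    if α < Ordinal.omega0 then S (f α) else if α = Ordinal.omega0 then T else ⊤ := ⟨_, rfl⟩
  have hnat : ∀ n : ℕ, S' (n : Ordinal.{0}) = S n := by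
    intro n
    rw [hS']
    simp only [Ordinal.natCast_lt_omega0, if_true, hf]
  have hom : S' Ordinal.omega0 = T := by
    rw [hS']; simp
  have hsucc : S' (Order.succ Ordinal.omega0) = ⊤ := by
    rw [hS']
    show (if Order.succ Ordinal.omega0 < Ordinal.omega0 then _ else
      if Order.succ Ordinal.omega0 = Ordinal.omega0 then _ else _) = _
    rw [if_neg (not_lt.2 (Order.le_succ _)), if_neg (Order.lt_succ _).ne']
  refine ⟨Order.succ Ordinal.omega0, S', ?_, hsucc, ?_, ?_⟩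
  · have := hnat 0
    rw [Nat.cast_zero] at this
    rw [this, h0]
  · intro α hα
    rcases (Order.lt_succ_iff.1 hα).lt_or_eq with h | h
    · obtain ⟨n, rfl⟩ := Ordinal.lt_omega0.1 h
      have e : Order.succ (n : Ordinal.{0}) = ((n + 1 : ℕ) : Ordinal.{0}) := by
        rw [Nat.cast_succ]; rfl
      rw [e, hnat, hnat]
      exact ⟨hmono n, fun a _ b hb => hnorm n a b hb, fun a ha b hb => hab n a b ha hb⟩
    · rw [h, hsucc, hom]
      exact ⟨le_top, fun a _ b hb => hTnorm a b hb, fun a _ b _ => hTab a b⟩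
  · intro l hl hlim
    have hl1 : Ordinal.omega0 ≤ l := Ordinal.omega0_le_of_isSuccLimit hlim
    have hl2 : l = Ordinal.omega0 := by
      rcases hl.lt_or_eq with h | h
      · exact le_antisymm (Order.lt_succ_iff.1 h) hl1
      · exfalso
        rw [h] at hlim
        exact Order.not_isSuccLimit_succ _ hlim
    rw [hl2, hom]
    ext y
    simp only [Set.mem_iUnion, SetLike.mem_coe, exists_prop]
    constructor
    · intro hy
      obtain ⟨m, hm⟩ := (hT y).1 hy
      exact ⟨m, Ordinal.natCast_lt_omega0 m, by rw [hnat]; exact hm⟩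
    · rintro ⟨α, hα, hy⟩
      obtain ⟨n, rfl⟩ := Ordinal.lt_omega0.1 hα
      rw [hnat] at hy
      exact (hT y).2 ⟨n, hy⟩

/-- Not every SN*-group satisfies `R̄(G) = ϱ̄(G)`. -/
theorem result :
    ¬ ∀ (G : Type) [Group G], IsSNStar G → BddRightEngel G = BddRho G := by
  intro H
  obtain ⟨s1, s2, s3, s4, s5, s6, s7⟩ := Pool.Agent.Helper94.series_spec
  have h1 := H (Pool.Agent.Helper94.GI Pool.Agent.Helper94.JJ)
    (isSNStar_of_seq _ _ s1 s2 s3 s4 s5 s6 s7)
  have h2 : Pool.Agent.Helper94.aa ∈ BddRightEngel (Pool.Agent.Helper94.GI Pool.Agent.Helper94.JJ) :=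
    ⟨73, fun x => Pool.Agent.Helper94.engel Pool.Agent.Helper94.JJ_sq x Pool.Agent.Helper94.aa⟩
  rw [h1] at h2
  obtain ⟨n, _, hn⟩ := h2
  obtain ⟨C, hC0, hCn, hC⟩ := hn Pool.Agent.Helper94.aa
  have hle : Subgroup.zpowers Pool.Agent.Helper94.aa ≤
      Subgroup.normalClosure {Pool.Agent.Helper94.aa} := by
    rw [Subgroup.zpowers_le]
    exact Subgroup.subset_normalClosure rfl
  rw [sup_eq_right.2 hle] at hCn
  apply Pool.Agent.Helper94.not_mem_Gam
  refine Pool.Agent.Helper94.subnormal_mem Pool.Agent.Helper94.good Pool.Agent.Helper94.aa (n + 1)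
    (fun i => if i ≤ n then C i else ⊤) ?_ ?_ ?_
  · simp [hC0]
  · simp
  · intro i hi
    by_cases h : i < n
    · have h' : i ≤ n := h.le
      have h'' : i + 1 ≤ n := h
      simp only [h', h'', if_true]
      exact hC i h
    · have h' : i = n := by omega
      subst h'
      simp only [le_refl, if_true]
      have h'' : ¬ (i + 1 ≤ i) := by omega
      simp only [h'', if_false]
      refine ⟨le_top, ?_⟩
      intro a _ b hb
      rw [hCn] at hb ⊢
      exact (Subgroup.normalClosure_normal (s := {Pool.Agent.Helper94.aa})).conj_mem b hb a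

end Pool.Agent.Results.MP_5f1296_al.SNStarDisproof
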